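import Pool.Agent.Helper9.PF.Moment

/-!
# MP_175197_nt, project BQ: integers without many prime factors and without high prime powers
-/

set_option autoImplicit false

namespace Pool.Agent.Helper51.BQ

open Finset
open Pool.Agent.Helper9.PF

private theorem count_le (Q Y r e : ℕ) (hcop : Nat.Coprime e Q) :
    ((Ico Y (2 * Y)).filter (fun n => e ∣ r + Q * n)).card ≤ Y / e + 1 := by
  rw [← card_range (Y / e + 1)]
  refine card_le_card_of_injOn (fun n => (n - Y) / e) ?_ ?_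
  · intro n hn
    rw [mem_coe, mem_filter, mem_Ico] at hn
    rw [mem_coe, mem_range, Nat.lt_succ_iff]
    exact Nat.div_le_div_right (by omega)
  · intro n hn n' hn' h
    rw [mem_coe, mem_filter, mem_Ico] at hn hn'
    have h1 : Q * n ≡ Q * n' [MOD e] := by
      have h2 : r + Q * n ≡ r + Q * n' [MOD e] :=
        ((Nat.modEq_zero_iff_dvd).2 hn.2).trans ((Nat.modEq_zero_iff_dvd).2 hn'.2).symm
      exact Nat.ModEq.add_left_cancel' r h2
    have h3 : n ≡ n' [MOD e] := Nat.ModEq.cancel_left_of_coprime hcop h1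
    have h4 : n - Y ≡ n' - Y [MOD e] := by
      refine Nat.ModEq.add_right_cancel' Y ?_
      rw [Nat.sub_add_cancel hn.1.1, Nat.sub_add_cancel hn'.1.1]
      exact h3
    simp only at h
    have h5 := Nat.div_add_mod (n - Y) e
    have h6 := Nat.div_add_mod (n' - Y) e
    have h7 : (n - Y) % e = (n' - Y) % e := h4
    rw [h, h7] at h5
    omega

/-- few integers have many prime factors -/
private theorem few_primes (Q Y a V B₀ : ℕ) (hQ : 0 < Q) (hY : 1 ≤ Y)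
    (hr : a + V + Q * (2 * Y) ≤ Y ^ 2)
    (hB : 8 * ((V : ℝ) + 1) * (1 + Real.log Y) < 2 ^ (B₀ + 1)) :
    (2 * (((Ico Y (2 * Y)).filter fun n => ∃ i ≤ V,
      B₀ < ((a + Q * n + i).primeFactors.filter (fun p => ¬ p ∣ Q)).card).card : ℝ)) ≤ Y := by
  have hY0 : (0 : ℝ) < Y := by exact_mod_cast hY
  obtain ⟨F, hF⟩ : ∃ F, F = (Ico Y (2 * Y)).filter fun n => ∃ i ≤ V,
      B₀ < ((a + Q * n + i).primeFactors.filter (fun p => ¬ p ∣ Q)).card := ⟨_, rfl⟩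
  rw [← hF]
  have h1 : ∀ n ∈ F, (2 : ℝ) ^ (B₀ + 1) ≤ ∑ i ∈ range (V + 1),
      (2 : ℝ) ^ ((a + i + Q * n).primeFactors.filter (fun p => ¬ p ∣ Q)).card := by
    intro n hn
    rw [hF, mem_filter] at hn
    obtain ⟨i, hi, hi2⟩ := hn.2
    have h2 : a + Q * n + i = a + i + Q * n := by ring
    rw [h2] at hi2
    refine le_trans (pow_le_pow_right₀ (by norm_num) hi2) ?_
    exact single_le_sum (f := fun i => (2 : ℝ) ^
      ((a + i + Q * n).primeFactors.filter (fun p => ¬ p ∣ Q)).card)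
      (fun j _ => by positivity) (mem_range.2 (Nat.lt_succ_of_le hi))
  have h3 := sum_le_sum h1
  rw [sum_const, nsmul_eq_mul] at h3
  have hsub : F ⊆ Ico Y (2 * Y) := by
    rw [hF]
    exact filter_subset _ _
  have h3' : ∑ n ∈ F, ∑ i ∈ range (V + 1),
      (2 : ℝ) ^ ((a + i + Q * n).primeFactors.filter (fun p => ¬ p ∣ Q)).card ≤
      ∑ n ∈ Ico Y (2 * Y), ∑ i ∈ range (V + 1),
      (2 : ℝ) ^ ((a + i + Q * n).primeFactors.filter (fun p => ¬ p ∣ Q)).card :=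
    sum_le_sum_of_subset_of_nonneg hsub fun n _ _ => sum_nonneg fun i _ => by positivity
  rw [sum_comm (s := Ico Y (2 * Y))] at h3'
  have h4 : ∑ i ∈ range (V + 1), ∑ n ∈ Ico Y (2 * Y),
      (2 : ℝ) ^ ((a + i + Q * n).primeFactors.filter (fun p => ¬ p ∣ Q)).card ≤
      ∑ _i ∈ range (V + 1), 4 * Y * (1 + Real.log Y) := by
    refine sum_le_sum fun i hi => moment Q Y (a + i) hQ hY ?_
    rw [mem_range] at hi
    omega
  rw [sum_const, card_range, nsmul_eq_mul] at h4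
  push_cast at h4
  have h6 : (F.card : ℝ) * 2 ^ (B₀ + 1) ≤ ((V : ℝ) + 1) * (4 * Y * (1 + Real.log Y)) :=
    h3.trans (h3'.trans h4)
  have h7 : 2 * (((V : ℝ) + 1) * (4 * Y * (1 + Real.log Y))) ≤ Y * 2 ^ (B₀ + 1) := by
    have : 2 * (((V : ℝ) + 1) * (4 * Y * (1 + Real.log Y))) =
        Y * (8 * ((V : ℝ) + 1) * (1 + Real.log Y)) := by ring
    rw [this]
    exact mul_le_mul_of_nonneg_left hB.le hY0.le
  have h8 : (0 : ℝ) < 2 ^ (B₀ + 1) := by positivity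
  have h9 : (2 * (F.card : ℝ)) * 2 ^ (B₀ + 1) ≤ Y * 2 ^ (B₀ + 1) := by linarith
  exact le_of_mul_le_mul_right h9 h8

open Classical in
/-- few integers have high prime powers -/
private theorem few_powers (Q Y a V y J : ℕ) (hY : 1 ≤ Y)
    (hr : a + V + Q * (2 * Y) ≤ Y ^ 2) (hQ : 0 < Q)
    (hQy : ∀ p : ℕ, p.Prime → p ≤ y → p ∣ Q) (hy2 : 2 ≤ y) (hJ : 4 ≤ J)
    (hyJ : 16 * (V + 1) ≤ y ^ (J - 2)) (hVY : 32 * (V + 1) ≤ Nat.sqrt Y) :
    (4 * (((Ico Y (2 * Y)).filter fun n => ∃ i ≤ V, ∃ p : ℕ, p.Prime ∧ ¬ p ∣ Q ∧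
      p ^ J ∣ a + Q * n + i).card : ℝ)) ≤ Y := by
  have hY0 : (0 : ℝ) < Y := by exact_mod_cast hY
  obtain ⟨X, hX⟩ : ∃ X, X = Nat.sqrt Y + 1 := ⟨_, rfl⟩
  have hXY : Y < X * X := by
    rw [hX]
    exact Nat.lt_succ_sqrt Y
  obtain ⟨R, hR⟩ : ∃ R : Finset ℕ, R = (Ioo y X).filter fun p => p.Prime ∧ ¬ p ∣ Q := ⟨_, rfl⟩
  have hcov : ((Ico Y (2 * Y)).filter fun n => ∃ i ≤ V, ∃ p : ℕ, p.Prime ∧ ¬ p ∣ Q ∧
      p ^ J ∣ a + Q * n + i) ⊆ (range (V + 1) ×ˢ R).biUnion fun x =>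
        (Ico Y (2 * Y)).filter fun n => x.2 ^ J ∣ (a + x.1) + Q * n := by
    intro n hn
    rw [mem_filter] at hn
    obtain ⟨hn1, i, hi, p, hp, hpQ, hpn⟩ := hn
    rw [mem_biUnion]
    refine ⟨(i, p), ?_, ?_⟩
    · rw [mem_product, mem_range, hR, mem_filter, mem_Ioo]
      refine ⟨Nat.lt_succ_of_le hi, ⟨?_, ?_⟩, hp, hpQ⟩
      · by_contra hcon
        exact hpQ (hQy p hp (not_lt.1 hcon))
      · by_contra hcon
        push Not at hcon
        rw [mem_Ico] at hn1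
        have hpos : 0 < a + Q * n + i := by
          have : 0 < Q * n := Nat.mul_pos hQ (by omega)
          omega
        have h1 : p ^ J ≤ a + Q * n + i := Nat.le_of_dvd hpos hpn
        have h2 : X ^ 4 ≤ p ^ J :=
          (Nat.pow_le_pow_left hcon 4).trans (Nat.pow_le_pow_right hp.pos hJ)
        have h3 : Y ^ 2 < X ^ 4 := by
          have : X ^ 4 = (X * X) ^ 2 := by ring
          rw [this]
          exact Nat.pow_lt_pow_left hXY (by norm_num)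
        have h4 : Q * n ≤ Q * (2 * Y) := Nat.mul_le_mul_left Q (by omega)
        omega
    · rw [mem_filter]
      refine ⟨hn1, ?_⟩
      have : a + i + Q * n = a + Q * n + i := by ring
      show p ^ J ∣ (a + i) + Q * n
      rw [this]
      exact hpn
  have h1 : (((Ico Y (2 * Y)).filter fun n => ∃ i ≤ V, ∃ p : ℕ, p.Prime ∧ ¬ p ∣ Q ∧
      p ^ J ∣ a + Q * n + i).card : ℝ) ≤ ∑ x ∈ range (V + 1) ×ˢ R, ((Y : ℝ) / (x.2 : ℝ) ^ J + 1) := by
    have h2 := (card_le_card hcov).trans card_biUnion_le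
    have h3 : ((∑ x ∈ range (V + 1) ×ˢ R,
        ((Ico Y (2 * Y)).filter fun n => x.2 ^ J ∣ (a + x.1) + Q * n).card : ℕ) : ℝ) ≤
        ∑ x ∈ range (V + 1) ×ˢ R, ((Y : ℝ) / (x.2 : ℝ) ^ J + 1) := by
      push_cast
      refine sum_le_sum fun x hx => ?_
      rw [mem_product, hR, mem_filter] at hx
      have hco : Nat.Coprime (x.2 ^ J) Q :=
        Nat.Coprime.pow_left J ((Nat.Prime.coprime_iff_not_dvd hx.2.2.1).2 hx.2.2.2)
      have h4 := count_le Q Y (a + x.1) (x.2 ^ J) hco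
      have h5 : (((Ico Y (2 * Y)).filter fun n => x.2 ^ J ∣ (a + x.1) + Q * n).card : ℝ) ≤
          ((Y / x.2 ^ J : ℕ) : ℝ) + 1 := by exact_mod_cast h4
      have h6 : ((Y / x.2 ^ J : ℕ) : ℝ) ≤ (Y : ℝ) / ((x.2 ^ J : ℕ) : ℝ) := Nat.cast_div_le
      push_cast at h6
      linarith
    exact (by exact_mod_cast h2 : (((Ico Y (2 * Y)).filter fun n => ∃ i ≤ V, ∃ p : ℕ, p.Prime ∧
      ¬ p ∣ Q ∧ p ^ J ∣ a + Q * n + i).card : ℝ) ≤ _).trans h3
  have h2 : ∑ x ∈ range (V + 1) ×ˢ R, ((Y : ℝ) / (x.2 : ℝ) ^ J + 1) =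
      ((V : ℝ) + 1) * ∑ p ∈ R, ((Y : ℝ) / (p : ℝ) ^ J + 1) := by
    rw [sum_product]
    simp only [sum_const, card_range, nsmul_eq_mul]
    push_cast
    ring
  have hyR : (0 : ℝ) < (y : ℝ) := by
    have : 0 < y := by omega
    exact_mod_cast this
  have hyJ0 : (0 : ℝ) < (y : ℝ) ^ (J - 2) := by positivity
  have h3 : ∑ p ∈ R, (Y : ℝ) / (p : ℝ) ^ J ≤ (Y : ℝ) / (y : ℝ) ^ (J - 2) := by
    have h4 : ∀ p ∈ R, (Y : ℝ) / (p : ℝ) ^ J ≤ (Y : ℝ) / (y : ℝ) ^ (J - 2) * ((p : ℝ) ^ 2)⁻¹ := by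
      intro p hp
      rw [hR, mem_filter, mem_Ioo] at hp
      have hp0 : (0 : ℝ) < (p : ℝ) := by exact_mod_cast hp.2.1.pos
      have hpy : (y : ℝ) ≤ (p : ℝ) := by exact_mod_cast hp.1.1.le
      have e1 : (p : ℝ) ^ J = (p : ℝ) ^ (J - 2) * (p : ℝ) ^ 2 := by
        rw [← pow_add]
        congr 1
        omega
      have e2 : (y : ℝ) ^ (J - 2) ≤ (p : ℝ) ^ (J - 2) := pow_le_pow_left₀ hyR.le hpy _
      rw [e1, div_mul_eq_div_div, ← div_eq_mul_inv]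
      refine div_le_div_of_nonneg_right ?_ (by positivity)
      exact div_le_div_of_nonneg_left hY0.le hyJ0 e2
    refine (sum_le_sum h4).trans ?_
    rw [← mul_sum]
    have h5 : ∑ p ∈ R, ((p : ℝ) ^ 2)⁻¹ ≤ 1 := by
      have h6 : ∑ p ∈ R, ((p : ℝ) ^ 2)⁻¹ ≤ ∑ p ∈ Ioo y X, ((p : ℝ) ^ 2)⁻¹ := by
        rw [hR]
        exact sum_le_sum_of_subset_of_nonneg (filter_subset _ _) fun i _ _ => by positivity
      have h7 : ∑ p ∈ Ioo y X, ((p : ℝ) ^ 2)⁻¹ ≤ 2 / ((y : ℝ) + 1) := sum_Ioo_inv_sq_le y X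
      have h8 : (2 : ℝ) / ((y : ℝ) + 1) ≤ 1 := by
        rw [div_le_one (by linarith)]
        have : (2 : ℝ) ≤ y := by exact_mod_cast hy2
        linarith
      linarith
    exact (mul_le_mul_of_nonneg_left h5 (by positivity)).trans (by rw [mul_one])
  have h4 : (R.card : ℝ) ≤ X := by
    have : R.card ≤ X := by
      rw [hR]
      refine (card_filter_le _ _).trans ?_
      rw [Nat.card_Ioo]
      omega
    exact_mod_cast this
  have h5 : ∑ p ∈ R, ((Y : ℝ) / (p : ℝ) ^ J + 1) ≤ (Y : ℝ) / (y : ℝ) ^ (J - 2) + X := by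
    rw [sum_add_distrib, sum_const, nsmul_eq_mul, mul_one]
    linarith
  have hV0 : (0 : ℝ) ≤ (V : ℝ) + 1 := by positivity
  have h6 : ((V : ℝ) + 1) * ((Y : ℝ) / (y : ℝ) ^ (J - 2)) ≤ Y / 16 := by
    have e1 : 16 * ((V : ℝ) + 1) ≤ (y : ℝ) ^ (J - 2) := by exact_mod_cast hyJ
    rw [← mul_div_assoc, div_le_div_iff₀ hyJ0 (by norm_num)]
    calc ((V : ℝ) + 1) * Y * 16 = Y * (16 * ((V : ℝ) + 1)) := by ring
      _ ≤ Y * (y : ℝ) ^ (J - 2) := mul_le_mul_of_nonneg_left e1 hY0.le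
  have h7 : ((V : ℝ) + 1) * X ≤ Y / 16 := by
    have e1 : (V + 1) * X * 16 ≤ Y := by
      obtain ⟨s, hs⟩ : ∃ s, s = Nat.sqrt Y := ⟨_, rfl⟩
      have e2 : s * s ≤ Y := by
        rw [hs]
        exact Nat.sqrt_le Y
      rw [← hs] at hVY hX
      have e3 : X ≤ 2 * s := by omega
      calc (V + 1) * X * 16 ≤ (V + 1) * (2 * s) * 16 :=
            Nat.mul_le_mul_right _ (Nat.mul_le_mul_left _ e3)
        _ = (32 * (V + 1)) * s := by ring
        _ ≤ s * s := Nat.mul_le_mul_right _ hVY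
        _ ≤ Y := e2
    have e2 : ((V : ℝ) + 1) * X * 16 ≤ Y := by exact_mod_cast e1
    linarith
  have h8 := mul_le_mul_of_nonneg_left h5 hV0
  rw [mul_add] at h8
  rw [h2] at h1
  linarith

open Classical in
theorem exists_good' (Q Y a V B₀ y J : ℕ) (hQ : 0 < Q) (hY : 1 ≤ Y)
    (hr : a + V + Q * (2 * Y) ≤ Y ^ 2)
    (hB : 8 * ((V : ℝ) + 1) * (1 + Real.log Y) < 2 ^ (B₀ + 1))
    (hQy : ∀ p : ℕ, p.Prime → p ≤ y → p ∣ Q) (hy2 : 2 ≤ y) (hJ : 4 ≤ J)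
    (hyJ : 16 * (V + 1) ≤ y ^ (J - 2)) (hVY : 32 * (V + 1) ≤ Nat.sqrt Y) :
    ∃ n ∈ Ico Y (2 * Y), ∀ i ≤ V,
      ((a + Q * n + i).primeFactors.filter (fun p => ¬ p ∣ Q)).card ≤ B₀ ∧
      ∀ p : ℕ, p.Prime → ¬ p ∣ Q → ¬ p ^ J ∣ a + Q * n + i := by
  have h1 := few_primes Q Y a V B₀ hQ hY hr hB
  have h2 := few_powers Q Y a V y J hY hr hQ hQy hy2 hJ hyJ hVY
  obtain ⟨F, hF⟩ : ∃ F, F = (Ico Y (2 * Y)).filter fun n => ∃ i ≤ V,
      B₀ < ((a + Q * n + i).primeFactors.filter (fun p => ¬ p ∣ Q)).card := ⟨_, rfl⟩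
  obtain ⟨G, hG⟩ : ∃ G, G = (Ico Y (2 * Y)).filter fun n => ∃ i ≤ V, ∃ p : ℕ, p.Prime ∧
      ¬ p ∣ Q ∧ p ^ J ∣ a + Q * n + i := ⟨_, rfl⟩
  rw [← hF] at h1
  rw [← hG] at h2
  have hY0 : (0 : ℝ) < Y := by exact_mod_cast hY
  have h3 : ((F ∪ G).card : ℝ) < ((Ico Y (2 * Y)).card : ℝ) := by
    have e1 : ((F ∪ G).card : ℝ) ≤ (F.card : ℝ) + G.card := by exact_mod_cast card_union_le F G
    have e2 : ((Ico Y (2 * Y)).card : ℝ) = Y := by
      rw [Nat.card_Ico]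
      have : 2 * Y - Y = Y := by omega
      rw [this]
    rw [e2]
    linarith
  have h4 : (F ∪ G).card < (Ico Y (2 * Y)).card := by exact_mod_cast h3
  obtain ⟨n, hn, hn2⟩ := exists_mem_notMem_of_card_lt_card h4
  refine ⟨n, hn, fun i hi => ⟨?_, ?_⟩⟩
  · by_contra hcon
    push Not at hcon
    apply hn2
    rw [mem_union, hF, mem_filter]
    exact Or.inl ⟨hn, i, hi, hcon⟩
  · intro p hp hpQ hpn
    apply hn2
    rw [mem_union, hG, mem_filter (s := Ico Y (2 * Y)) (p := fun n => ∃ i ≤ V, ∃ p : ℕ, p.Prime ∧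
      ¬ p ∣ Q ∧ p ^ J ∣ a + Q * n + i)]
    exact Or.inr ⟨hn, i, hi, p, hp, hpQ, hpn⟩

end Pool.Agent.Helper51.BQ
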