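import Pool.Agent.Helper51.BP.Params

/-!
# MP_175197_nt, project BQ: the parameters

`G, y, D, W, E, V` belong to `L = T * l`; the noise, `Y`, `Z` and the pool of primes to `l`.
-/

set_option autoImplicit false

namespace Pool.Agent.Helper51.BQ

open Filter
open Pool.Agent.Helper9.PF
open Pool.Agent.Helper51.BM (RR)
open Pool.Agent.Helper51.BP (m1 m2 small)

/-- the bound for the exponents -/
def JJ (L : ℕ) : ℕ := 128 * (1 + eta L) + 10
/-- the noise -/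
def NB (T l : ℕ) : ℕ := (l + JJ (T * l)) * 2 ^ l
/-- number of design primes per place -/
def uP (T l : ℕ) : ℕ := (2 * NB T l + 1) * 2 ^ (T * l)
/-- `B` -/
def bP (T l : ℕ) : ℕ := uP T l + NB T l
/-- the exponent of the primorial in the modulus -/
def JM (T L : ℕ) : ℕ := T + 2 * yy L + 2 * del L + 4
/-- the modulus without `QQ` -/
def RM (T L : ℕ) : ℕ := T * primorial (yy L) ^ JM T L

private theorem eta_pos {L : ℕ} (hL : 1 ≤ L) : 1 ≤ eta L := by
  unfold eta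
  have h1 : 1 ≤ L ^ 2 := Nat.one_le_pow _ _ hL
  omega

private theorem JJ_le {L : ℕ} (hL : 1 ≤ L) : JJ L ≤ 2 * del L + 10 := by
  have h1 := eta_pos hL
  unfold JJ del
  nlinarith

theorem m3 {T : ℕ} (hT : 4 ≤ T) : ∀ᶠ l : ℕ in atTop, l + JJ (T * l) ≤ 2 ^ l := by
  filter_upwards [m1 hT, eventually_ge_atTop 1] with l hl hl1
  have hL1 : 1 ≤ T * l := Nat.mul_pos (by omega) hl1
  have h1 := JJ_le hL1
  have h2 : 2 ^ (l - 2) ≤ 2 ^ l := Nat.pow_le_pow_right (by norm_num) (by omega)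
  have h3 : l ≤ (T + 4) * l := Nat.le_mul_of_pos_left _ (by omega)
  omega

private theorem VV_le {L : ℕ} (hL : 1 ≤ L) : VV L ≤ 2 ^ (2 * del L + 3) := by
  unfold VV EE WW DD
  have h0 : L ≤ del L := by
    unfold del eta
    have h1 : L ≤ L ^ 2 := by nlinarith
    have h2 : 1 ≤ 64 * (1 + 8192 * L ^ 2) := by omega
    calc L ≤ 1 * (8192 * L ^ 2) := by omega
      _ ≤ 64 * (1 + 8192 * L ^ 2) * (8192 * L ^ 2) := Nat.mul_le_mul_right _ h2
  have h1 : 2 ^ L + 2 ≤ 2 ^ (L + 1) := by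
    have h2 : 2 ^ 1 ≤ 2 ^ L := Nat.pow_le_pow_right (by norm_num) hL
    rw [pow_succ]
    omega
  have h3 : 2 ^ (L + 1) ≤ 2 ^ (del L + 1) :=
    Nat.pow_le_pow_right (by norm_num) (by omega)
  calc 2 * (2 ^ del L * (2 ^ L + 2)) + 4 * (2 ^ del L) ^ 2
      ≤ 2 * (2 ^ del L * 2 ^ (del L + 1)) + 4 * (2 ^ del L) ^ 2 := by
        gcongr
        exact h1.trans h3
    _ = 2 ^ (2 * del L + 3) := by ring

private theorem V1_le {L : ℕ} (hL : 1 ≤ L) : VV L + 1 ≤ 2 ^ (2 * del L + 4) := by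
  have h2 := VV_le hL
  have h3 : 1 ≤ 2 ^ (2 * del L + 3) := Nat.one_le_two_pow
  rw [pow_succ 2 (2 * del L + 3)]
  omega

/-- `J` is large enough -/
theorem s1 {L : ℕ} (hL : 1 ≤ L) : 16 * (VV L + 1) ≤ yy L ^ (JJ L - 2) := by
  have h1 := V1_le hL
  have h2 := eta_pos hL
  have h3 : JJ L - 2 = 128 * (1 + eta L) + 8 := by
    unfold JJ
    omega
  rw [h3]
  unfold yy
  rw [← pow_mul]
  calc 16 * (VV L + 1) ≤ 16 * 2 ^ (2 * del L + 4) := Nat.mul_le_mul_left _ h1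
    _ = 2 ^ (2 * del L + 8) := by ring
    _ ≤ 2 ^ (eta L * (128 * (1 + eta L) + 8)) := by
        refine Nat.pow_le_pow_right (by norm_num) ?_
        unfold del
        nlinarith

private theorem uP_le {T l : ℕ} (hJ : l + JJ (T * l) ≤ 2 ^ l) :
    uP T l ≤ 2 ^ (T * l + 2 * l + 2) := by
  unfold uP NB
  have h2 : 1 ≤ 2 ^ l := Nat.one_le_two_pow
  have h3 : 2 ^ (T * l + 2 * l + 2) = (4 * (2 ^ l * 2 ^ l)) * 2 ^ (T * l) := by ring
  rw [h3]
  refine Nat.mul_le_mul_right _ ?_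
  have h4 : (l + JJ (T * l)) * 2 ^ l ≤ 2 ^ l * 2 ^ l := Nat.mul_le_mul_right _ hJ
  have h5 : 1 ≤ 2 ^ l * 2 ^ l := Nat.mul_pos h2 h2
  omega

private theorem NB_le {T l : ℕ} (hJ : l + JJ (T * l) ≤ 2 ^ l) :
    2 * NB T l + 1 ≤ 2 ^ (2 * l + 2) := by
  unfold NB
  have h2 : 1 ≤ 2 ^ l := Nat.one_le_two_pow
  have h3 : 2 ^ (2 * l + 2) = 4 * (2 ^ l * 2 ^ l) := by ring
  rw [h3]
  have h4 : (l + JJ (T * l)) * 2 ^ l ≤ 2 ^ l * 2 ^ l := Nat.mul_le_mul_right _ hJ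
  have h5 : 1 ≤ 2 ^ l * 2 ^ l := Nat.mul_pos h2 h2
  omega

private theorem bP_le {T l : ℕ} (hJ : l + JJ (T * l) ≤ 2 ^ l) :
    2 * bP T l + 1 ≤ 2 ^ (T * l + 2 * l + 4) := by
  unfold bP
  have h1 := uP_le hJ
  have h2 := NB_le hJ
  have h3 : 2 ^ (2 * l + 2) ≤ 2 ^ (T * l + 2 * l + 2) := Nat.pow_le_pow_right (by norm_num) (by omega)
  have h4 : 2 ^ (T * l + 2 * l + 4) = 4 * 2 ^ (T * l + 2 * l + 2) := by ring
  rw [h4]
  omega

theorem r4 {T : ℕ} (hT : 4 ≤ T) : ∀ᶠ l : ℕ in atTop,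
    8 * ((VV (T * l) : ℝ) + 1) * (1 + Real.log (YY l)) < 2 ^ (2 ^ l + 1) := by
  filter_upwards [m1 hT, eventually_ge_atTop 2] with l hl hl2
  have hL1 : 1 ≤ T * l := Nat.mul_pos (by omega) (by omega)
  have h1 : (VV (T * l) : ℝ) + 1 ≤ 2 ^ (2 * del (T * l) + 4) := by
    exact_mod_cast V1_le hL1
  have h5 : 1 + Real.log (YY l) ≤ 2 ^ (2 ^ (l - 1) + 1) := by
    unfold YY
    push_cast
    rw [Real.log_pow, pow_succ]
    have h6 : Real.log 2 ≤ 1 := by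
      have := Real.log_two_lt_d9
      linarith
    have h7 : (1 : ℝ) ≤ 2 ^ 2 ^ (l - 1) := one_le_pow₀ (by norm_num)
    push_cast
    nlinarith
  have h8 : 2 * del (T * l) + 8 + 2 ^ (l - 1) < 2 ^ l + 1 := by
    have h12 : 2 ^ l = 2 * 2 ^ (l - 1) := by
      rw [← pow_succ']
      congr 1
      omega
    have h13 : 2 ^ (l - 2) ≤ 2 ^ (l - 1) := Nat.pow_le_pow_right (by norm_num) (by omega)
    omega
  have hnn : 0 ≤ 1 + Real.log (YY l) := by
    have : 0 ≤ Real.log (YY l) := Real.log_natCast_nonneg _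
    linarith
  calc 8 * ((VV (T * l) : ℝ) + 1) * (1 + Real.log (YY l))
      ≤ 8 * 2 ^ (2 * del (T * l) + 4) * 2 ^ (2 ^ (l - 1) + 1) := by
        gcongr
    _ = 2 ^ (2 * del (T * l) + 8 + 2 ^ (l - 1)) := by
        have h15 : (2 : ℝ) ^ (3 + (2 * del (T * l) + 4) + (2 ^ (l - 1) + 1))
            = 2 ^ 3 * 2 ^ (2 * del (T * l) + 4) * 2 ^ (2 ^ (l - 1) + 1) := by
          rw [pow_add, pow_add]
        rw [show 2 * del (T * l) + 8 + 2 ^ (l - 1) =
          3 + (2 * del (T * l) + 4) + (2 ^ (l - 1) + 1) by ring,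
          h15, show (2 : ℝ) ^ 3 = 8 by norm_num]
    _ < 2 ^ (2 ^ l + 1) := pow_lt_pow_right₀ (by norm_num) h8

theorem r5 {T : ℕ} (hT : 4 ≤ T) : ∀ᶠ l : ℕ in atTop, ∀ lam : ℝ, 3 / 2 ≤ lam →
    4 * (bP T l : ℝ) + 2 * (30 * (l : ℝ)) < lam ^ GG (T * l) := by
  filter_upwards [m3 hT, eventually_ge_atTop 1] with l hJ hl lam hlam
  have hL3 : 3 ≤ T * l := by nlinarith
  have h1 : ∀ L : ℕ, 3 ≤ L → (76 : ℝ) * 4 ^ L < 25 ^ L := by
    intro L hL
    induction L, hL using Nat.le_induction with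
    | base => norm_num
    | succ L hL ih =>
      rw [pow_succ, pow_succ]
      have h2 : (0 : ℝ) < 4 ^ L := by positivity
      linarith
  have h3 : (25 : ℝ) ^ (T * l) ≤ lam ^ GG (T * l) := by
    unfold GG
    rw [pow_mul lam]
    refine pow_le_pow_left₀ (by norm_num) ?_ (T * l)
    refine le_trans ?_ (pow_le_pow_left₀ (by norm_num) hlam 8)
    norm_num
  have h4 : 4 * bP T l + 2 * (30 * l) ≤ 76 * 4 ^ (T * l) := by
    obtain ⟨c, hc⟩ : ∃ c, c = l + JJ (T * l) := ⟨_, rfl⟩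
    have hlc : l ≤ c := by omega
    obtain ⟨x, hx⟩ : ∃ x, x = 2 ^ l := ⟨_, rfl⟩
    have hx1 : 1 ≤ x := by rw [hx]; exact Nat.one_le_two_pow
    obtain ⟨z, hz⟩ : ∃ z, z = 2 ^ (T * l) := ⟨_, rfl⟩
    have hxz : x * x ≤ z := by
      rw [hx, hz, ← pow_add]
      exact Nat.pow_le_pow_right (by norm_num) (by nlinarith)
    have e4 : uP T l = (2 * (c * x) + 1) * z := by
      unfold uP NB
      rw [hx, hz, hc]
    have e5 : NB T l = c * x := by
      unfold NB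
      rw [hx, hc]
    have e6 : (4 : ℕ) ^ (T * l) = z * z := by
      rw [hz, ← mul_pow]
      norm_num
    have e3 : c ≤ x := by
      rw [hc, hx]
      exact hJ
    have e7 : c * x ≤ x * x := Nat.mul_le_mul_right _ e3
    have hz1 : 1 ≤ z := by nlinarith
    unfold bP
    rw [e4, e5, e6]
    have e8 : (2 * (c * x) + 1) * z ≤ (3 * z) * z := Nat.mul_le_mul_right _ (by nlinarith)
    have e9 : c * x ≤ z * z := by nlinarith
    have e10 : l ≤ z * z := by nlinarith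
    have e11 : 3 * z * z = 3 * (z * z) := by ring
    omega
  have h5 : 4 * (bP T l : ℝ) + 2 * (30 * (l : ℝ)) ≤ 76 * 4 ^ (T * l) := by exact_mod_cast h4
  exact lt_of_le_of_lt h5 ((h1 _ hL3).trans_le h3)

theorem r7 {T : ℕ} (hT : 4 ≤ T) : ∀ᶠ l : ℕ in atTop,
    l * (WW (T * l) * uP T l) ≤ 2 ^ (l ^ 8) ∧ VV (T * l) ≤ 2 ^ (l ^ 8) ∧
      yy (T * l) ≤ 2 ^ (l ^ 8) := by
  filter_upwards [m2 hT, m3 hT, eventually_ge_atTop 1] with l hkey hJ hl
  have hL1 : 1 ≤ T * l := Nat.mul_pos (by omega) hl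
  have hTl : (T + 4) * l = T * l + 4 * l := by ring
  refine ⟨?_, ?_, ?_⟩
  · calc l * (WW (T * l) * uP T l) ≤ 2 ^ l * (4 * (2 ^ del (T * l)) ^ 2 *
          2 ^ (T * l + 2 * l + 2)) :=
          Nat.mul_le_mul Nat.lt_two_pow_self.le (Nat.mul_le_mul_left _ (uP_le hJ))
      _ = 2 ^ (2 * del (T * l) + T * l + 3 * l + 4) := by ring
      _ ≤ 2 ^ (l ^ 8) := Nat.pow_le_pow_right (by norm_num) (by omega)
  · exact (VV_le hL1).trans (Nat.pow_le_pow_right (by norm_num) (by omega))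
  · unfold yy
    have h : eta (T * l) ≤ del (T * l) := by
      unfold del
      nlinarith [Nat.zero_le (eta (T * l))]
    exact Nat.pow_le_pow_right (by norm_num) (by omega)

theorem QQ_le (G y : ℕ) : QQ G y ≤ 4 ^ y := by
  refine le_trans ?_ (primorial_le_four_pow y)
  unfold QQ primorial
  refine Finset.prod_le_prod_of_subset_of_one_le' ?_ ?_
  · intro p hp
    rw [Finset.mem_filter, Finset.mem_Ioc] at hp
    rw [Finset.mem_filter, Finset.mem_range]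
    exact ⟨by omega, hp.2⟩
  · intro p hp _
    exact (Finset.mem_filter.1 hp).2.one_le

/-- the residue fits into the power -/
theorem s2 {T L a' : ℕ} (hL : 1 ≤ L) (ha : a' < 2 * (QQ (GG L) (yy L) * T)) :
    a' + VV L < 2 ^ JM T L := by
  have h1 : QQ (GG L) (yy L) * T ≤ 2 ^ (2 * yy L) * 2 ^ T := by
    refine Nat.mul_le_mul ?_ Nat.lt_two_pow_self.le
    refine (QQ_le _ _).trans (le_of_eq ?_)
    rw [pow_mul]
    norm_num
  have h2 := VV_le hL
  have h3 : 2 ^ (2 * yy L) * 2 ^ T = 2 ^ (2 * yy L + T) := (pow_add _ _ _).symm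
  have h4 : 2 ^ (2 * yy L + T) ≤ 2 ^ (T + 2 * yy L + 2 * del L + 2) :=
    Nat.pow_le_pow_right (by norm_num) (by omega)
  have h5 : 2 ^ (2 * del L + 3) ≤ 2 ^ (T + 2 * yy L + 2 * del L + 3) :=
    Nat.pow_le_pow_right (by norm_num) (by omega)
  have h6 : 2 ^ (T + 2 * yy L + 2 * del L + 3) = 2 * 2 ^ (T + 2 * yy L + 2 * del L + 2) := by
    rw [← pow_succ']
  have h7 : 2 ^ JM T L = 4 * 2 ^ (T + 2 * yy L + 2 * del L + 2) := by
    unfold JM
    have : T + 2 * yy L + 2 * del L + 4 = (T + 2 * yy L + 2 * del L + 2) + 2 := by omega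
    rw [this, pow_add]
    ring
  rw [h3] at h1
  omega

theorem r8 {T : ℕ} (hT : 4 ≤ T) : ∀ᶠ l : ℕ in atTop,
    16 * (RM T (T * l) * QQ (GG (T * l)) (yy (T * l)) * ZZ l ^ (2 * (WW (T * l) * uP T l))) ≤
      YY l := by
  filter_upwards [m1 hT, m3 hT, eventually_ge_atTop 2] with l hexp hJ hl
  obtain ⟨L, hL⟩ : ∃ L, L = T * l := ⟨_, rfl⟩
  have hTl : (T + 4) * l = L + 4 * l := by rw [hL]; ring
  have hTL : T ≤ L := by
    rw [hL]
    exact Nat.le_mul_of_pos_right _ (by omega)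
  have huP := uP_le hJ
  rw [← hL] at hexp huP ⊢
  have hpow : 2 * 2 ^ (l - 2) = 2 ^ (l - 1) := by
    rw [← pow_succ']
    congr 1
    omega
  have heta : eta L ≤ del L := by
    unfold del
    nlinarith [Nat.zero_le (eta L)]
  obtain ⟨m, hm⟩ : ∃ m, m = 2 ^ (l - 2) := ⟨_, rfl⟩
  obtain ⟨e1, he1⟩ : ∃ e1, e1 = m + (2 * del L + L + 2 * l + 5) := ⟨_, rfl⟩
  rw [← hm] at hexp hpow
  have he2 : e1 + 2 ≤ 2 ^ (l - 1) := by omega
  have hW : 2 * (WW L * uP T l) ≤ 2 ^ (2 * del L + L + 2 * l + 5) := by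
    have h1 : WW L * uP T l ≤ 4 * (2 ^ del L) ^ 2 * 2 ^ (L + 2 * l + 2) :=
      Nat.mul_le_mul_left _ huP
    have h2 : 4 * (2 ^ del L) ^ 2 * 2 ^ (L + 2 * l + 2) =
        2 ^ (2 * del L + L + 2 * l + 4) := by ring
    have h3 : 2 ^ (2 * del L + L + 2 * l + 5) =
        2 * 2 ^ (2 * del L + L + 2 * l + 4) := by ring
    omega
  have hZ : ZZ l ^ (2 * (WW L * uP T l)) ≤ 2 ^ 2 ^ e1 := by
    unfold ZZ
    rw [← pow_mul]
    refine Nat.pow_le_pow_right (by norm_num) ?_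
    rw [he1, pow_add, hm]
    exact Nat.mul_le_mul_left _ hW
  -- the modulus
  have hRM : RM T L * QQ (GG L) (yy L) ≤ 2 ^ (T + 2 * yy L * (JM T L + 1)) := by
    unfold RM
    have g1 : T ≤ 2 ^ T := Nat.lt_two_pow_self.le
    have g2 : primorial (yy L) ^ JM T L ≤ (4 ^ yy L) ^ JM T L :=
      Nat.pow_le_pow_left (primorial_le_four_pow _) _
    calc T * primorial (yy L) ^ JM T L * QQ (GG L) (yy L)
        ≤ 2 ^ T * (4 ^ yy L) ^ JM T L * 4 ^ yy L :=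
          Nat.mul_le_mul (Nat.mul_le_mul g1 g2) (QQ_le _ _)
      _ = 2 ^ (T + 2 * yy L * (JM T L + 1)) := by
          have g3 : ∀ k : ℕ, (4 : ℕ) ^ k = 2 ^ (2 * k) := by
            intro k
            rw [pow_mul]
            norm_num
          rw [← pow_mul, g3, g3, ← pow_add, ← pow_add]
          congr 1
          ring
  have hexp2 : T + 2 * yy L * (JM T L + 1) ≤ 2 ^ e1 := by
    have g0 : 2 * yy L = 2 ^ (eta L + 1) := by
      unfold yy
      rw [pow_succ']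
    obtain ⟨b, hb⟩ : ∃ b, b = 2 ^ (eta L + 1) := ⟨_, rfl⟩
    have g1 : JM T L + 1 ≤ m + b := by
      unfold JM
      omega
    have g2 : m ≤ 2 ^ m := Nat.lt_two_pow_self.le
    have g3 : b ≤ 2 ^ m := by
      rw [hb]
      exact Nat.pow_le_pow_right (by norm_num) (by omega)
    have g4 : 1 ≤ b := by rw [hb]; exact Nat.one_le_two_pow
    have g5 : T ≤ 2 ^ m := by omega
    rw [g0, ← hb]
    calc T + b * (JM T L + 1) ≤ b * 2 ^ m + b * (2 ^ m + 2 ^ m) := by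
          refine Nat.add_le_add ?_ (Nat.mul_le_mul_left _ (g1.trans (Nat.add_le_add g2 g3)))
          exact g5.trans (Nat.le_mul_of_pos_left _ g4)
      _ = 3 * (b * 2 ^ m) := by ring
      _ ≤ 4 * (b * 2 ^ m) := Nat.mul_le_mul_right _ (by norm_num)
      _ = 2 ^ (eta L + 3 + m) := by rw [hb]; ring
      _ ≤ 2 ^ e1 := Nat.pow_le_pow_right (by norm_num) (by omega)
  have h6 : 4 ≤ 2 ^ e1 := by
    calc 4 = 2 ^ 2 := by norm_num
      _ ≤ 2 ^ e1 := Nat.pow_le_pow_right (by norm_num) (by omega)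
  calc 16 * (RM T L * QQ (GG L) (yy L) * ZZ l ^ (2 * (WW L * uP T l)))
      ≤ 16 * (2 ^ 2 ^ e1 * 2 ^ 2 ^ e1) :=
        Nat.mul_le_mul_left _ (Nat.mul_le_mul
          (hRM.trans (Nat.pow_le_pow_right (by norm_num) hexp2)) hZ)
    _ = 2 ^ (4 + 2 ^ e1 + 2 ^ e1) := by rw [pow_add, pow_add]; ring
    _ ≤ 2 ^ (2 ^ (e1 + 2)) := by
        refine Nat.pow_le_pow_right (by norm_num) ?_
        have h7 : 2 ^ (e1 + 2) = 4 * 2 ^ e1 := by ring
        rw [h7]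
        omega
    _ ≤ YY l := by
        unfold YY
        exact Nat.pow_le_pow_right (by norm_num) (Nat.pow_le_pow_right (by norm_num) he2)

theorem s3 {T : ℕ} (hT : 4 ≤ T) : ∀ᶠ l : ℕ in atTop,
    32 * (VV (T * l) + 1) ≤ Nat.sqrt (YY l) := by
  filter_upwards [m1 hT, eventually_ge_atTop 2] with l hexp hl
  have hL1 : 1 ≤ T * l := Nat.mul_pos (by omega) (by omega)
  have h1 := V1_le hL1
  obtain ⟨x, hx⟩ : ∃ x, x = 2 ^ (l - 1) := ⟨_, rfl⟩
  have hpow : 2 ^ (l - 2) + 2 ^ (l - 2) = x := by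
    rw [hx, ← two_mul, ← pow_succ']
    congr 1
    omega
  have hx1 : 1 ≤ x := by rw [hx]; exact Nat.one_le_two_pow
  have hpow2 : 2 ^ (x - 1) + 2 ^ (x - 1) = 2 ^ x := by
    rw [← two_mul, ← pow_succ']
    congr 1
    omega
  have hx2 : x - 1 < 2 ^ (x - 1) := Nat.lt_two_pow_self
  rw [Nat.le_sqrt]
  have h2 : 32 * (VV (T * l) + 1) ≤ 2 ^ (2 ^ (x - 1)) := by
    calc 32 * (VV (T * l) + 1) ≤ 32 * 2 ^ (2 * del (T * l) + 4) := Nat.mul_le_mul_left _ h1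
      _ = 2 ^ (2 * del (T * l) + 9) := by ring
      _ ≤ 2 ^ (2 ^ (x - 1)) := Nat.pow_le_pow_right (by norm_num) (by omega)
  calc 32 * (VV (T * l) + 1) * (32 * (VV (T * l) + 1)) ≤ 2 ^ (2 ^ (x - 1)) * 2 ^ (2 ^ (x - 1)) :=
        Nat.mul_le_mul h2 h2
    _ = YY l := by
        have e1 : YY l = 2 ^ 2 ^ x := by rw [hx]; rfl
        rw [e1, ← pow_add, hpow2]

theorem r10 {T : ℕ} (hT : 4 ≤ T) (K₀ : ℕ) : ∀ᶠ l : ℕ in atTop, ∀ bI : ℕ,
    16 * T * bI ≤ WW (T * l) →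
    (2 * bP T l + 1) ^ bI * (2 * NB T l + 1) ^ (WW (T * l) / 16) *
      ((2 * (K₀ ^ (yy (T * l) ^ 2) * (RR l + 1)) + 1) ^ 2) ^ DD (T * l) *
      (VV (T * l) + 2) ^ (l * yy (T * l) * DD (T * l)) <
        (2 ^ (T * l)) ^ (WW (T * l) / T) := by
  filter_upwards [m3 hT, eventually_ge_atTop (K₀ + 10 + T)] with l hJ hl bI hbI
  have hbP := bP_le hJ
  have hNBle := NB_le hJ
  obtain ⟨L, hL⟩ : ∃ L, L = T * l := ⟨_, rfl⟩
  have hlL : l ≤ L := by
    rw [hL]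
    exact Nat.le_mul_of_pos_left _ (by omega)
  rw [← hL] at hbI hbP ⊢
  obtain ⟨N, S, h1, h2, h3⟩ := small K₀ L (by omega)
  have hRR : RR l ≤ RR L := by
    unfold RR
    refine Nat.mul_le_mul hlL ?_
    have : 2 ^ 2 ^ (l - 1) ≤ 2 ^ 2 ^ (L - 1) :=
      Nat.pow_le_pow_right (by norm_num) (Nat.pow_le_pow_right (by norm_num) (by omega))
    omega
  have h4 : 2 * (K₀ ^ (yy L ^ 2) * (RR l + 1)) + 1 ≤ 2 ^ N := by
    refine le_trans ?_ h1
    have : K₀ ^ (yy L ^ 2) * (RR l + 1) ≤ K₀ ^ (yy L ^ 2) * (RR L + 1) :=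
      Nat.mul_le_mul_left _ (by omega)
    omega
  have h5 : (VV L + 2) ^ (l * yy L * DD L) ≤ 2 ^ (S * DD L) := by
    rw [pow_mul (VV L + 2), pow_mul 2]
    refine Nat.pow_le_pow_left (le_trans ?_ h2) _
    exact Nat.pow_le_pow_right (by omega) (Nat.mul_le_mul_right _ hlL)
  obtain ⟨W, hW⟩ : ∃ W, W = WW L := ⟨_, rfl⟩
  obtain ⟨D, hD⟩ : ∃ D, D = DD L := ⟨_, rfl⟩
  have hWD : W = 4 * D ^ 2 := by rw [hW, hD, WW]
  have hbB : (2 * bP T l + 1) ^ bI ≤ 2 ^ ((L + 2 * l + 4) * bI) := by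
    rw [pow_mul]
    exact Nat.pow_le_pow_left hbP _
  have hNBp : (2 * NB T l + 1) ^ (W / 16) ≤ 2 ^ ((2 * l + 2) * (W / 16)) := by
    rw [pow_mul]
    exact Nat.pow_le_pow_left hNBle _
  have hK1 : ((2 * (K₀ ^ (yy L ^ 2) * (RR l + 1)) + 1) ^ 2) ^ D ≤ 2 ^ (2 * N * D) := by
    calc ((2 * (K₀ ^ (yy L ^ 2) * (RR l + 1)) + 1) ^ 2) ^ D ≤ ((2 ^ N) ^ 2) ^ D :=
          Nat.pow_le_pow_left (Nat.pow_le_pow_left h4 _) _
      _ = 2 ^ (2 * N * D) := by
          rw [← pow_mul, ← pow_mul]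
          congr 1
          ring
  rw [← hW] at hbI ⊢
  rw [← hD] at h3 h5 ⊢
  have hmain : (L + 2 * l + 4) * bI + (2 * l + 2) * (W / 16) + 2 * N * D + S * D < L * (W / T) := by
    -- multiply by 16
    have g1 : 16 * (W / 16) ≤ W := Nat.mul_div_le W 16
    have g2 : W < T * (W / T) + T := by
      have := Nat.div_add_mod W T
      have := Nat.mod_lt W (by omega : 0 < T)
      omega
    have g3 : 16 * (L * bI) ≤ l * W := by
      rw [hL]
      calc 16 * (T * l * bI) = l * (16 * T * bI) := by ring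
        _ ≤ l * W := Nat.mul_le_mul_left _ hbI
    have g4 : 16 * ((2 * l + 4) * bI) * 4 ≤ (2 * l + 4) * W := by
      calc 16 * ((2 * l + 4) * bI) * 4 = (2 * l + 4) * (16 * 4 * bI) := by ring
        _ ≤ (2 * l + 4) * (16 * T * bI) := by
            refine Nat.mul_le_mul_left _ (Nat.mul_le_mul_right _ (by omega))
        _ ≤ (2 * l + 4) * W := Nat.mul_le_mul_left _ hbI
    have g5 : 16 * ((2 * l + 2) * (W / 16)) ≤ (2 * l + 2) * W := by
      calc 16 * ((2 * l + 2) * (W / 16)) = (2 * l + 2) * (16 * (W / 16)) := by ring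
        _ ≤ (2 * l + 2) * W := Nat.mul_le_mul_left _ g1
    have g6 : 4 * ((2 * N + S) * D) ≤ D * D := by
      calc 4 * ((2 * N + S) * D) = (4 * (2 * N + S)) * D := by ring
        _ ≤ D * D := Nat.mul_le_mul_right _ h3.le
    have g7 : l * W ≤ L * (W / T) + T * l := by
      calc l * W ≤ l * (T * (W / T) + T) := Nat.mul_le_mul_left _ g2.le
        _ = T * l * (W / T) + T * l := by ring
        _ = L * (W / T) + T * l := by rw [← hL]
    have g8 : T * l < D := by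
      rw [← hL, hD, DD]
      have e1 : L ≤ del L := by
        unfold del eta
        have h1 : L ≤ L ^ 2 := by nlinarith
        have h2 : 1 ≤ 64 * (1 + 8192 * L ^ 2) := by omega
        calc L ≤ 1 * (8192 * L ^ 2) := by omega
          _ ≤ 64 * (1 + 8192 * L ^ 2) * (8192 * L ^ 2) := Nat.mul_le_mul_right _ h2
      exact lt_of_le_of_lt e1 Nat.lt_two_pow_self
    have g9 : D ≤ D * D := Nat.le_mul_of_pos_left _ (by omega)
    have hW2 : W = 4 * (D * D) := by rw [hWD]; ring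
    -- collect
    have c1 : (L + 2 * l + 4) * bI = L * bI + (2 * l + 4) * bI := by ring
    have c2 : 2 * N * D + S * D = (2 * N + S) * D := by ring
    have c3 : (2 * l + 4) * W = 2 * (l * W) + 4 * W := by ring
    have c4 : (2 * l + 2) * W = 2 * (l * W) + 2 * W := by ring
    have c5 : 10 * W ≤ l * W := Nat.mul_le_mul_right _ (by omega)
    rw [c3] at g4
    rw [c4] at g5
    rw [c1]
    have hWpos : 0 < W := by
      rw [hW2]
      omega
    omega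
  calc (2 * bP T l + 1) ^ bI * (2 * NB T l + 1) ^ (W / 16) *
      ((2 * (K₀ ^ (yy L ^ 2) * (RR l + 1)) + 1) ^ 2) ^ D * (VV L + 2) ^ (l * yy L * D)
      ≤ 2 ^ ((L + 2 * l + 4) * bI) * 2 ^ ((2 * l + 2) * (W / 16)) * 2 ^ (2 * N * D) *
        2 ^ (S * D) :=
        Nat.mul_le_mul (Nat.mul_le_mul (Nat.mul_le_mul hbB hNBp) hK1) h5
    _ = 2 ^ ((L + 2 * l + 4) * bI + (2 * l + 2) * (W / 16) + 2 * N * D + S * D) := by
        rw [← pow_add, ← pow_add, ← pow_add]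
    _ < 2 ^ (L * (W / T)) := Nat.pow_lt_pow_right (by norm_num) hmain
    _ = (2 ^ L) ^ (W / T) := pow_mul _ _ _

end Pool.Agent.Helper51.BQ
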