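import Pool.Agent.Helper51.BQ.Unique

/-!
# MP_175197_nt, project BQ: the number of admissible integers
-/

set_option autoImplicit false

namespace Pool.Agent.Helper51.BQ

open Finset
open Pool.Agent.Helper9.PF
open Pool.Agent.Helper51.BM (cd cd_iff cd_le)
open Pool.Agent.Helper51.BP (Th FR aR)

theorem count {lam K : ℝ} (hlam : 3 / 2 ≤ lam) {A : Set ℕ} {KA : ℕ} (hA : Good A KA)
    {ε θ : ℕ → ℤ} {y Rm : ℕ} (hyK : KA.factorial ≤ y) (hy2 : 2 ≤ y)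
    (hθ : Th θ) (dyn : Dyn lam (aR A ε θ y) K) {Q D G E W V X H a B K₁ : ℕ} {Rc ρ : ℝ}
    (hQ : ∀ p : ℕ, p.Prime → p ∣ Q → KA < p ∧ p ≤ y) (hQ0 : 0 < Q) (hQodd : Odd Q)
    (hR4 : 4 ∣ Rm) (hRK : 2 * KA.factorial ∣ Rm) (Bf : ℕ → ℕ)
    (hG : 4 * (B : ℝ) + 2 * ρ < lam ^ G) (hRc : Rc ≤ ρ * lam ^ H) (hV : E + W + H * D ≤ V)
    (hK0 : 0 ≤ K) (hK : K * (1 + Rc) ≤ K₁) (𝒩 : Finset ℕ)
    (h1 : ∀ N ∈ 𝒩, 1 ≤ N) (hX : ∀ N ∈ 𝒩, N + V ≤ X) (hmod : ∀ N ∈ 𝒩, N ≡ a [MOD Rm * Q])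
    (hsm : ∀ N ∈ 𝒩, ∀ N' ∈ 𝒩, ∀ i ≤ V, ∀ m : ℕ, (∀ p : ℕ, p.Prime → p ∣ m → p ≤ y) →
      (m ∣ N + i ↔ m ∣ N' + i))
    (hB : ∀ N ∈ 𝒩, ∀ i ≤ V, |fR A ε KA y (N + i)| ≤ (B : ℤ))
    (hBf : ∀ N ∈ 𝒩, ∀ i ∈ Bad Q D G E W a, |fR A ε KA y (N + i)| ≤ (Bf i : ℤ))
    (hR : ∀ N ∈ 𝒩, ∀ i d, i ≤ V → 0 < d → d ∣ Q → d ≤ D → d ∣ N + i →
      bet lam (aR A ε θ y) ((N + i) / d) ≤ Rc)
    (hst : ∀ N ∈ 𝒩, ∀ d, 0 < d → d ∣ Q → d ≤ D →
      bet lam (aR A ε θ y) ((N + i0 a E d) / d - 1) ≤ Rc)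
    (hinj : ∀ N ∈ 𝒩, ∀ N' ∈ 𝒩, (∀ i, E < i → i ≤ E + W →
      fR A ε KA y (N + i) = fR A ε KA y (N' + i)) → N = N') :
    𝒩.card ≤ (∏ i ∈ Bad Q D G E W a, (2 * Bf i + 1)) * ((2 * K₁ + 1) ^ 2) ^ D *
      (V + 2) ^ (KA * y * D) := by
  classical
  obtain ⟨S, hS⟩ : ∃ S : Finset ℕ, S = (Icc 1 D).filter (fun d => d ∣ Q) := ⟨_, rfl⟩
  have hSm : ∀ d, d ∈ S ↔ (1 ≤ d ∧ d ≤ D) ∧ d ∣ Q := by
    intro d
    rw [hS, mem_filter, mem_Icc]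
  have hScard : S.card ≤ D := by
    rw [hS]
    refine (card_le_card (filter_subset _ _)).trans ?_
    rw [Nat.card_Icc]
    omega
  obtain ⟨C, hC⟩ : ∃ C : Finset (ℕ × ℕ), C = SC A KA y X ×ˢ S := ⟨_, rfl⟩
  have hCcard : C.card ≤ KA * y * D := by
    rw [hC, card_product]
    exact Nat.mul_le_mul (card_SC hA hyK X) hScard
  let g : ℕ → (((Bad Q D G E W a) → ℤ) × (S → ℤ × ℤ)) × (C → ℕ) := fun N =>
    ((fun i => fR A ε KA y (N + (i : ℕ)), fun d => dyn.w ((N + i0 a E (d : ℕ)) / (d : ℕ) - 1)),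
      fun c => cd V ((c : ℕ × ℕ).2 * (c : ℕ × ℕ).1) N)
  let T : Finset ((((Bad Q D G E W a) → ℤ) × (S → ℤ × ℤ)) × (C → ℕ)) :=
    ((Fintype.piFinset fun i : (Bad Q D G E W a) => Icc (-(Bf i : ℤ)) (Bf i)) ×ˢ
      (Fintype.piFinset fun _ => Icc (-(K₁ : ℤ)) K₁ ×ˢ Icc (-(K₁ : ℤ)) K₁)) ×ˢ
      (Fintype.piFinset fun _ => range (V + 2))
  have hI : ∀ k : ℕ, (Icc (-(k : ℤ)) k).card = 2 * k + 1 := by
    intro k
    rw [Int.card_Icc]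
    omega
  have hT : T.card = (∏ i ∈ Bad Q D G E W a, (2 * Bf i + 1)) * ((2 * K₁ + 1) ^ 2) ^ S.card *
      (V + 2) ^ C.card := by
    show (((Fintype.piFinset fun i : (Bad Q D G E W a) => Icc (-(Bf i : ℤ)) (Bf i)) ×ˢ
      (Fintype.piFinset fun _ : S => Icc (-(K₁ : ℤ)) K₁ ×ˢ Icc (-(K₁ : ℤ)) K₁)) ×ˢ
      (Fintype.piFinset fun _ : C => range (V + 2))).card = _
    rw [card_product, card_product, Fintype.card_piFinset, Fintype.card_piFinset,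
      Fintype.card_piFinset, prod_const, prod_const,
      card_product, hI, card_univ, card_univ, Fintype.card_coe, Fintype.card_coe,
      card_range, ← sq]
    congr 2
    rw [← Finset.prod_coe_sort (Bad Q D G E W a) (fun i => 2 * Bf i + 1)]
    exact Finset.prod_congr rfl fun i _ => hI _
  have hmaps : ∀ N ∈ 𝒩, g N ∈ T := by
    intro N hN
    refine mem_product.2 ⟨mem_product.2 ⟨Fintype.mem_piFinset.2 fun i => ?_,
      Fintype.mem_piFinset.2 fun d => ?_⟩, Fintype.mem_piFinset.2 fun c => ?_⟩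
    · rw [mem_Icc, ← abs_le]
      exact hBf N hN i i.2
    · obtain ⟨⟨hd1, hd2⟩, hd3⟩ := (hSm d).1 d.2
      have hb := hst N hN d hd1 hd3 hd2
      have hb2 : K * (1 + bet lam (aR A ε θ y) ((N + i0 a E (d : ℕ)) / (d : ℕ) - 1)) ≤ K₁ :=
        (mul_le_mul_of_nonneg_left (by linarith) hK0).trans hK
      have e1 := (dyn.bd1 ((N + i0 a E (d : ℕ)) / (d : ℕ) - 1)).trans hb2
      have e2 := (dyn.bd2 ((N + i0 a E (d : ℕ)) / (d : ℕ) - 1)).trans hb2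
      rw [mem_product, mem_Icc, mem_Icc, ← abs_le, ← abs_le]
      exact ⟨by exact_mod_cast e1, by exact_mod_cast e2⟩
    · rw [mem_range]
      have := cd_le V ((c : ℕ × ℕ).2 * (c : ℕ × ℕ).1) N
      show cd V ((c : ℕ × ℕ).2 * (c : ℕ × ℕ).1) N < V + 2
      omega
  have hinj' : Set.InjOn g (𝒩 : Set ℕ) := by
    intro N hN N' hN' heq
    rw [mem_coe] at hN hN'
    refine hinj N hN N' hN' ?_
    have heq1 : (g N).1 = (g N').1 := congrArg Prod.fst heq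
    have heq2 : (g N).2 = (g N').2 := congrArg Prod.snd heq
    refine unique (V := V) (B := B) hlam hθ dyn hQ hQ0 hQodd hR4 hG hRc hV (h1 N hN) (h1 N' hN')
      (hmod N hN) (hmod N' hN') (hR N hN) (hR N' hN') (hB N hN) (hB N' hN') ?_ ?_ ?_
    · intro i d hi hd0 hdQ hdD hdN hdN'
      have hmm : N ≡ N' [MOD 2 * KA.factorial] :=
        ((hmod N hN).trans (hmod N' hN').symm).of_dvd (hRK.mul_right Q)
      refine gR_eq hA ε (X := X) (Odd.of_dvd_nat hQodd hdQ) hy2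
        (fun p hp hpd => (hQ p hp (hpd.trans hdQ)).2) (h1 N hN) (h1 N' hN') (hX N hN)
        (hX N' hN') hi hdN hdN' hmm (hsm N hN N' hN' i hi) ?_
      intro c hc
      have hcd : (c, d) ∈ C := by
        rw [hC, mem_product]
        exact ⟨hc, (hSm d).2 ⟨⟨hd0, hdD⟩, hdQ⟩⟩
      exact congrFun heq2 ⟨(c, d), hcd⟩
    · intro d hd0 hdQ hdD
      have hd : d ∈ S := (hSm d).2 ⟨⟨hd0, hdD⟩, hdQ⟩
      exact congrFun (congrArg Prod.snd heq1) ⟨d, hd⟩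
    · intro i hi
      exact congrFun (congrArg Prod.fst heq1) ⟨i, hi⟩
  refine (card_le_card_of_injOn g hmaps hinj').trans ?_
  rw [hT]
  refine Nat.mul_le_mul ?_ ?_
  · exact Nat.mul_le_mul_left _ (Nat.pow_le_pow_right (by positivity) hScard)
  · exact Nat.pow_le_pow_right (by positivity) hCcard

end Pool.Agent.Helper51.BQ
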